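import Mathlib

/-!
# Periodic residually finite groups with the weak minimum condition
-/

set_option autoImplicit false

open Subgroup

namespace Pool.Agent.Results.MP_b731ff_al.Equivalence

/-- Residual finiteness. -/
def RF (G : Type) [Group G] : Prop :=
  ∀ g : G, g ≠ 1 → ∃ N : Subgroup G, N.Normal ∧ N.FiniteIndex ∧ g ∉ N

/-- Every element has finite order. -/
def Periodic (G : Type) [Group G] : Prop := ∀ g : G, IsOfFinOrder g

/-- The weak minimum condition for subgroups: in every descending chain all but finitely many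
successive indices are finite (an infinite index is `0`). -/
def WeakMin (G : Type) [Group G] : Prop :=
  ∀ H : ℕ → Subgroup G, Antitone H → ∃ n, ∀ m, n ≤ m → (H (m + 1)).relIndex (H m) ≠ 0

/-- Every subgroup of infinite index is finite. -/
def PropF (G : Type) [Group G] : Prop := ∀ H : Subgroup G, H.index = 0 → Finite H

theorem exists_minimal {G : Type} [Group G] [hinf : Infinite G] (hw : WeakMin G) :
    ∃ K : Subgroup G, Infinite K ∧ ∀ L : Subgroup G, L ≤ K → L.relIndex K = 0 → Finite L := by
  by_contra hcon
  push Not at hcon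
  have hstep : ∀ K : {K : Subgroup G // Infinite K}, ∃ L : {L : Subgroup G // Infinite L},
      L.1 ≤ K.1 ∧ L.1.relIndex K.1 = 0 := by
    rintro ⟨K, hK⟩
    obtain ⟨L, h1, h2, h3⟩ := hcon K hK
    exact ⟨⟨L, not_finite_iff_infinite.1 (by simpa using h3)⟩, h1, h2⟩
  choose f hf1 hf2 using hstep
  have htop : Infinite (⊤ : Subgroup G) := Infinite.of_injective (fun g : G => ⟨g, mem_top g⟩)
    (fun a b h => congrArg Subtype.val h)
  let S : ℕ → {K : Subgroup G // Infinite K} := fun n => f^[n] ⟨⊤, htop⟩
  have hS : ∀ n, S (n + 1) = f (S n) := fun n => Function.iterate_succ_apply' f n _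
  obtain ⟨n, hn⟩ := hw (fun n => (S n).1) (antitone_nat_of_succ_le fun n => by
    show (S (n + 1)).1 ≤ (S n).1
    rw [hS]; exact hf1 _)
  apply hn n le_rfl
  show (S (n + 1)).1.relIndex (S n).1 = 0
  rw [hS]; exact hf2 _

theorem weakMin_of_propF {G : Type} [Group G] (h : PropF G) : WeakMin G := by
  intro H _
  by_cases hex : ∃ n, Finite (H n)
  · obtain ⟨n, hn⟩ := hex
    refine ⟨n, fun m hm => ?_⟩
    have h1 : Finite (H m) := Finite.of_injective _ (inclusion_injective (‹Antitone H› hm))
    have h2 : ((H (m + 1)).subgroupOf (H m)).FiniteIndex := inferInstance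
    exact h2.index_ne_zero
  · push Not at hex
    refine ⟨0, fun m _ => ?_⟩
    have h1 : (H (m + 1)).FiniteIndex := ⟨fun h0 => by
      have h2 := h _ h0
      have h3 := hex (m + 1)
      exact not_finite_iff_infinite.2 (by simpa using h3) h2⟩
    have h2 : ((H (m + 1)).subgroupOf (H m)).FiniteIndex := inferInstance
    exact h2.index_ne_zero

/-- The following are equivalent: there is an infinite periodic residually finite group with the
weak minimum condition; there is an infinite periodic residually finite group whose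
infinite-index subgroups are finite; there is a residually finite group whose infinite-index
subgroups are finite and which has no cyclic subgroup of finite index. -/
theorem result :
    ((∃ (G : Type) (_ : Group G), Infinite G ∧ Periodic G ∧ RF G ∧ WeakMin G) ↔
      ∃ (G : Type) (_ : Group G), Infinite G ∧ Periodic G ∧ RF G ∧ PropF G) ∧
    ((∃ (G : Type) (_ : Group G), Infinite G ∧ Periodic G ∧ RF G ∧ WeakMin G) ↔
      ∃ (G : Type) (_ : Group G), RF G ∧ PropF G ∧
        ¬ ∃ C : Subgroup G, IsCyclic C ∧ C.FiniteIndex) := by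
  have h1 : (∃ (G : Type) (_ : Group G), Infinite G ∧ Periodic G ∧ RF G ∧ WeakMin G) ↔
      ∃ (G : Type) (_ : Group G), Infinite G ∧ Periodic G ∧ RF G ∧ PropF G := by
    constructor
    · rintro ⟨G, _, hinf, hp, hrf, hw⟩
      obtain ⟨K, hK, hmin⟩ := exists_minimal hw
      refine ⟨K, inferInstance, hK, ?_, ?_, ?_⟩
      · intro g
        obtain ⟨n, hn, hn'⟩ := isOfFinOrder_iff_pow_eq_one.1 (hp (g : G))
        exact isOfFinOrder_iff_pow_eq_one.2 ⟨n, hn, Subtype.ext hn'⟩
      · rintro ⟨g, hg⟩ hg1
        obtain ⟨N, hN1, hN2, hN3⟩ := hrf g (fun h => hg1 (Subtype.ext h))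
        exact ⟨N.subgroupOf _, inferInstance, inferInstance, fun h => hN3 h⟩
      · intro L h0
        have h2 : (L.map K.subtype).relIndex K = 0 := by
          show ((L.map K.subtype).comap K.subtype).index = 0
          rw [comap_map_eq_self_of_injective (subtype_injective K)]
          exact h0
        have h3 := hmin _ (map_subtype_le L) h2
        exact Finite.of_injective (fun x : L => (⟨(x : K), x, x.2, rfl⟩ : L.map K.subtype))
          (fun a b hab => by
            have h9 := congrArg Subtype.val hab
            exact Subtype.ext (Subtype.ext h9))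
    · rintro ⟨G, _, hinf, hp, hrf, hF⟩
      exact ⟨G, _, hinf, hp, hrf, weakMin_of_propF hF⟩
  refine ⟨h1, h1.trans ⟨?_, ?_⟩⟩
  · rintro ⟨G, _, hinf, hp, hrf, hF⟩
    refine ⟨G, _, hrf, hF, ?_⟩
    rintro ⟨C, hC, hCfi⟩
    obtain ⟨c, hc⟩ := IsCyclic.exists_generator (α := C)
    have hfc : IsOfFinOrder c := by
      obtain ⟨n, hn, hn'⟩ := isOfFinOrder_iff_pow_eq_one.1 (hp (c : G))
      exact isOfFinOrder_iff_pow_eq_one.2 ⟨n, hn, Subtype.ext hn'⟩
    have h2 : (Set.univ : Set C).Finite := (finite_zpowers.2 hfc).subset fun x _ => hc x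
    have h3 : Finite C := Set.finite_univ_iff.1 h2
    have h4 : Nat.card C * C.index = Nat.card G := card_mul_index _
    have h5 : Nat.card G ≠ 0 := by
      rw [← h4]; exact mul_ne_zero Nat.card_pos.ne' hCfi.index_ne_zero
    exact hinf.not_finite (Nat.finite_of_card_ne_zero h5)
  · rintro ⟨G, _, hrf, hF, hnc⟩
    refine ⟨G, _, ?_, ?_, hrf, hF⟩
    · rw [← not_finite_iff_infinite]
      intro hfin
      exact hnc ⟨⊥, inferInstance, inferInstance⟩
    · intro g
      by_contra hg
      apply hnc
      refine ⟨zpowers g, inferInstance, ⟨fun h0 => hg ?_⟩⟩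
      exact finite_zpowers.1 (Set.finite_coe_iff.1 (hF _ h0))

end Pool.Agent.Results.MP_b731ff_al.Equivalence
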